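import Mathlib
import Pool.Agent.Q62.HU.Ends

/-! # All closed orbits, on all scales, on average over the rotations

The field `X = (P, Q)` is expanded at each of its zeros `p` into homogeneous parts,
`X (p + x) = X₁ (x) + ... + Xₙ (x)`. Let `‖X_k‖` be the largest length of `X_k` on the unit circle.
A distance `r` is called controlled (with the constant `c`) if some part `X_k` dominates all the
other ones at this distance by the factor `2 n / c` and is large in all directions,
`|X_k (x)| ≥ c ‖X_k‖` for all unit vectors `x`. We bound the number of all closed orbits in the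
plane of the field rotated by `α`, `0 < α < π`, on average over `α`, by the number of annuli of
modulus `e` which are needed to cover the distances which are not controlled; there is no other
restriction on the scales of the closed orbits. -/

open Set MeasureTheory
open scoped ENNReal

namespace Pool.Agent.Results.MP_95e7ec_an.AllScales

/-- The vector field `(P, Q)` rotated by the angle `a`. -/
noncomputable def rotated (P Q : MvPolynomial (Fin 2) ℝ) (a : ℝ) (z : ℝ × ℝ) : ℝ × ℝ :=
  (Real.cos a * MvPolynomial.eval ![z.1, z.2] P - Real.sin a * MvPolynomial.eval ![z.1, z.2] Q,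
    Real.sin a * MvPolynomial.eval ![z.1, z.2] P + Real.cos a * MvPolynomial.eval ![z.1, z.2] Q)

/-- The set of all closed orbits in the plane (the images of the nonconstant periodic solutions,
limit cycles or not) of a vector field. -/
def closedOrbits (X : ℝ × ℝ → ℝ × ℝ) : Set (Set (ℝ × ℝ)) :=
  {C | ∃ γ : ℝ → ℝ × ℝ, ∃ T : ℝ, 0 < T ∧ (∀ t : ℝ, HasDerivAt γ (X (γ t)) t) ∧
    (∀ t : ℝ, γ (t + T) = γ t) ∧ (∃ s t : ℝ, γ s ≠ γ t) ∧ C = Set.range γ}

/-- The polynomial `F (p + x)`. -/
noncomputable def expansion (p : ℝ × ℝ) (F : MvPolynomial (Fin 2) ℝ) : MvPolynomial (Fin 2) ℝ :=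
  MvPolynomial.bind₁ (fun i => MvPolynomial.X i + MvPolynomial.C (![p.1, p.2] i)) F

/-- The length, at the unit vector with the angle `θ`, of the homogeneous part of degree `k` of the
field `(P, Q)` expanded at `p`. -/
noncomputable def part (P Q : MvPolynomial (Fin 2) ℝ) (p : ℝ × ℝ) (k : ℕ) (θ : ℝ) : ℝ :=
  √(MvPolynomial.eval ![Real.cos θ, Real.sin θ]
        (MvPolynomial.homogeneousComponent k (expansion p P)) ^ 2 +
    MvPolynomial.eval ![Real.cos θ, Real.sin θ]
        (MvPolynomial.homogeneousComponent k (expansion p Q)) ^ 2)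

/-- The largest length, on the unit circle, of the homogeneous part of degree `k` at `p`. -/
noncomputable def size (P Q : MvPolynomial (Fin 2) ℝ) (p : ℝ × ℝ) (k : ℕ) : ℝ :=
  ⨆ θ, part P Q p k θ

/-- At the distance `r` from `p` the homogeneous part of degree `k` is at least `M` times as large
as each of the other ones. -/
def Dominates (P Q : MvPolynomial (Fin 2) ℝ) (M : ℝ) (p : ℝ × ℝ) (k : ℕ) (r : ℝ) : Prop :=
  ∀ j, j ≠ k → M * (size P Q p j * r ^ j) ≤ size P Q p k * r ^ k

/-- At the distance `r` from `p` some homogeneous part dominates all the other ones by the factor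
`2 n / c`, and its length on the unit circle is everywhere at least `c` times its largest
length. -/
def Controlled (n : ℕ) (P Q : MvPolynomial (Fin 2) ℝ) (c : ℝ) (p : ℝ × ℝ) (r : ℝ) : Prop :=
  ∃ k, 0 < size P Q p k ∧ Dominates P Q (2 * n / c) p k r ∧
    ∀ θ, c * size P Q p k ≤ part P Q p k θ

/-- The field of degree at most `n` is well conditioned with the constant `c`: at each of its
zeros, every homogeneous part which dominates all the others by the factor `2 n / c` at some
distance is large in all directions. -/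
def WellConditioned (n : ℕ) (P Q : MvPolynomial (Fin 2) ℝ) (c : ℝ) : Prop :=
  ∀ p : ℝ × ℝ, MvPolynomial.eval ![p.1, p.2] P = 0 → MvPolynomial.eval ![p.1, p.2] Q = 0 →
    ∀ (k : ℕ) (r : ℝ), 0 < r → Dominates P Q (2 * n / c) p k r →
      ∀ θ, c * size P Q p k ≤ part P Q p k θ

/-- The closed orbit `C` of `(P, Q)` persists when the field is rotated by the angles between `0`
and `η`: there are a continuous map `(a, t) ↦ γ a t` and a continuous positive function `a ↦ T a`
such that for all angles `a` between `0` and `η` the curve `γ a` is a nonconstant solution of period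
`T a` of the field rotated by `a`, and `C` is the range of `γ 0`. -/
def Persists (P Q : MvPolynomial (Fin 2) ℝ) (η : ℝ) (C : Set (ℝ × ℝ)) : Prop :=
  ∃ γ : ℝ → ℝ → ℝ × ℝ, ∃ T : ℝ → ℝ,
    ContinuousOn (fun q : ℝ × ℝ => γ q.1 q.2) (uIcc 0 η ×ˢ univ) ∧ ContinuousOn T (uIcc 0 η) ∧
    (∀ a ∈ uIcc 0 η, 0 < T a ∧ (∀ t, HasDerivAt (γ a) (rotated P Q a (γ a t)) t) ∧
      (∀ t, γ a (t + T a) = γ a t) ∧ (∃ s t, γ a s ≠ γ a t)) ∧
    C = range (γ 0)

/-- The number of all closed orbits in the plane of the field rotated by `α` has a measurable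
majorant on `0 < α < π` with integral at most `B`; and the sum, over all closed orbits `C` of the
single field `(P, Q)`, of the lengths of the intervals of angles up to which `C` persists is at most
`2 B`. -/
def MeanAtMost (P Q : MvPolynomial (Fin 2) ℝ) (B : ℝ) : Prop :=
  (∃ g : ℝ → ℝ≥0∞, Measurable g ∧
    (∀ α ∈ Ioo 0 Real.pi, ((closedOrbits (rotated P Q α)).encard : ℝ≥0∞) ≤ g α) ∧
    ∫⁻ α in Ioo 0 Real.pi, g α ≤ ENNReal.ofReal B) ∧
  ∑' C : closedOrbits (rotated P Q 0),
    volume {η : ℝ | η ∈ Ioo (-Real.pi) Real.pi ∧ Persists P Q η C} ≤ ENNReal.ofReal (2 * B)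

/-- **All closed orbits, on all scales.** Let `P`, `Q` be relatively prime of degree at most `n`.

(i) If, for some `0 < c ≤ 1`, at each zero `p` of the field all distances `r` outside of at most `m`
intervals `[ρ, e ρ]` are controlled with the constant `c`, then the mean number of all closed orbits
is bounded by `n² (n + 1) (8000 m + 11 n)` (integral over `0 < α < π`).

(ii) If the field is well conditioned with the constant `c`, then it is bounded by
`16000 n³ (n + 1) (1 + log (2 n / c))`.

(iii) If at each zero of the field the first and the last of the homogeneous parts which do not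
vanish identically have no zeros on the unit circle (for instance, if all zeros of the field are
simple and the forms of highest degree have no common zero on the circle), then the number of all
closed orbits in the plane of the rotated field has an integrable majorant. -/
theorem result (n : ℕ) (hn : 1 ≤ n) (P Q : MvPolynomial (Fin 2) ℝ) (hP : P.totalDegree ≤ n)
    (hQ : Q.totalDegree ≤ n) (hPQ : IsRelPrime P Q) :
    (∀ (c : ℝ) (m : ℕ), 0 < c → c ≤ 1 →
      (∀ p : ℝ × ℝ, MvPolynomial.eval ![p.1, p.2] P = 0 →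
        MvPolynomial.eval ![p.1, p.2] Q = 0 → ∃ E : Finset ℝ, E.card ≤ m ∧
          ∀ r, 0 < r → (∀ ρ ∈ E, r ∉ Icc ρ (Real.exp 1 * ρ)) → Controlled n P Q c p r) →
      MeanAtMost P Q (n ^ 2 * (n + 1) * (8000 * m + 11 * n))) ∧
    (∀ c : ℝ, 0 < c → c ≤ 1 → WellConditioned n P Q c →
      MeanAtMost P Q (16000 * n ^ 3 * (n + 1) * (1 + Real.log (2 * n / c)))) ∧
    ((∀ p : ℝ × ℝ, MvPolynomial.eval ![p.1, p.2] P = 0 → MvPolynomial.eval ![p.1, p.2] Q = 0 →
        ∀ k, size P Q p k ≠ 0 →
          ((∀ j < k, size P Q p j = 0) ∨ (∀ j, k < j → size P Q p j = 0)) →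
          ∀ θ, part P Q p k θ ≠ 0) →
      ∃ B : ℝ, MeanAtMost P Q B) := by
  have key : ∀ B : ℝ, 0 ≤ B →
      H709Q.Maj (fun α => ((closedOrbits (rotated P Q α)).encard : ℝ≥0∞)) B →
      MeanAtMost P Q B := by
    intro B hB h1
    refine ⟨h1, ?_⟩
    have hF : ContDiff ℝ 2 (H709R2.field P Q) := H709R2.contDiff_field P Q
    have h3 : H709Q.Maj (fun α => (({D | H709R2.ClosedOrbit (H709U.rf (H709R2.field P Q) α) D ∧
        (fun _ _ => True : ℝ → Set (ℝ × ℝ) → Prop) α D}.encard : ℕ∞) : ℝ≥0∞)) B := by
      simp only [and_true]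
      exact h1
    have h := W960.HP.total hF (G := fun _ _ => True) (fun _ _ h => h) hB h3
      (closedOrbits (rotated P Q 0))
    refine le_trans (ENNReal.tsum_le_tsum fun C => measure_mono ?_) h
    rintro η ⟨h4, γ, T, h5, h6, h7, h8⟩
    exact ⟨h4, γ, T, h5, h6, fun a ha => ⟨(h7 a ha).1, (h7 a ha).2.1, (h7 a ha).2.2.1,
      (h7 a ha).2.2.2, trivial⟩, h8⟩
  have hn' : (1:ℝ) ≤ n := by exact_mod_cast hn
  refine ⟨fun c m hc0 hc1 hE => key _ (by positivity) (Q62.HU.gen' hP hQ hn hPQ hc0 hc1 m hE),
    fun c hc0 hc1 hW => ?_, fun hdef => ?_⟩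
  · have hlog : 0 ≤ Real.log (2 * n / c) := by
      apply Real.log_nonneg
      rw [le_div_iff₀ hc0]
      linarith
    refine key _ (by positivity) ?_
    have h3 : 16000 * (n:ℝ) ^ 3 * (n + 1) * (1 + Real.log (2 * n / c)) =
        16000 * (n ^ 3 * (n + 1)) * (1 + Real.log (2 * n / c)) := by ring
    rw [h3]
    exact Q62.HU.well' hP hQ hn hPQ hc0 hc1 hW
  · obtain ⟨B, hB, h⟩ := Q62.HU.integrable hP hQ hn hPQ hdef
    exact ⟨B, key B hB h⟩

end Pool.Agent.Results.MP_95e7ec_an.AllScales
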