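import Mathlib
import Pool.Agent.Q62.HN.Sharp
import Pool.Agent.TH525.AG.AngMean

/-! # The mean number of closed orbits, when only the divergence is shifted: the exact order is the
logarithm of the degree

For a planar vector field `X` let `X_s = X - (s / 2) p`, so that `div X_s = div X - s` and the
angular velocity of `X` is unchanged. We bound the integral over all `s` of the number of closed
orbits of `X_s` in regions in which the flow turns about the origin: in an annulus it is at most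
`(M - m) (log (R / r) + 1 / 4)`, independently of the degree, where `m ≤ div X ≤ M`; in a disc
about the origin it is at most `(M - m) (log n + 2 π Q + 7 / 2)` for fields of degree `n`, and this
logarithmic growth is attained. -/

open Set MeasureTheory
open scoped ENNReal

namespace Pool.Agent.Results.MP_95e7ec_an.LogarithmicMean

/-- The value of a polynomial at a point of the plane. -/
noncomputable def val (F : MvPolynomial (Fin 2) ℝ) (p : ℝ × ℝ) : ℝ :=
  MvPolynomial.eval ![p.1, p.2] F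

/-- `x f + y g`; this is `r r'` along the orbits of `x' = f`, `y' = g`. -/
def radial (f g : ℝ × ℝ → ℝ) (p : ℝ × ℝ) : ℝ := p.1 * f p + p.2 * g p

/-- `x g - y f`; this is `r ^ 2 θ'` along the orbits of `x' = f`, `y' = g`. -/
def angular (f g : ℝ × ℝ → ℝ) (p : ℝ × ℝ) : ℝ := p.1 * g p - p.2 * f p

/-- The divergence of the vector field `(f, g)`. -/
noncomputable def divergence (f g : ℝ × ℝ → ℝ) (p : ℝ × ℝ) : ℝ :=
  fderiv ℝ f p (1, 0) + fderiv ℝ g p (0, 1)

/-- The vector field `X_s = X - (s / 2) p`, where `X = (f, g)`. Its divergence is `div X - s`. -/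
noncomputable def family (f g : ℝ × ℝ → ℝ) (s : ℝ) (p : ℝ × ℝ) : ℝ × ℝ :=
  (f p - s / 2 * p.1, g p - s / 2 * p.2)

/-- The set of the closed orbits (the images of the nonconstant periodic solutions) of the vector
field `X` which are contained in `A`. -/
def closedOrbitsIn (X : ℝ × ℝ → ℝ × ℝ) (A : Set (ℝ × ℝ)) : Set (Set (ℝ × ℝ)) :=
  {C | (∃ γ : ℝ → ℝ × ℝ, ∃ T : ℝ, 0 < T ∧ (∀ t : ℝ, HasDerivAt γ (X (γ t)) t) ∧
    (∀ t : ℝ, γ (t + T) = γ t) ∧ (∃ a b : ℝ, γ a ≠ γ b) ∧ C = range γ) ∧ C ⊆ A}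

/-- The closed disc of radius `R` about the origin, without the origin. -/
def puncturedDisc (R : ℝ) : Set (ℝ × ℝ) :=
  {p | 0 < p.1 ^ 2 + p.2 ^ 2 ∧ p.1 ^ 2 + p.2 ^ 2 ≤ R ^ 2}

/-- **The mean number of closed orbits in the family `X_s = X - (s / 2) p`.**

(i) Let `X = (f, g)` be of class `C¹` and let `A` be a set which meets every ray from the origin in
an interval, such that on `A` the flow turns counter-clockwise about the origin (`x g - y f > 0`) and
`m ≤ div X ≤ M`. Then `X_s` has at most one closed orbit in `A` unless `m ≤ s ≤ M`; and if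
`A` lies in the annulus `r ≤ |p| ≤ R`, the number of the closed orbits of `X_s` in `A`, for
`m ≤ s ≤ M`, has a measurable majorant `N` with `∫ N ≤ (M - m) (log (R / r) + 1 / 4)`.

(ii) Let `X` be a polynomial field of degree at most `n` with `m ≤ div X ≤ M` on the disc of radius
`2 r`, and let the flow turn counter-clockwise about the origin in the disc of radius `r` without
the origin, with `|r'| ≤ Q r θ'` along the orbits of `X_s` for `m ≤ s ≤ M`. Then `X_s` has no closed
orbit in this punctured disc unless `m ≤ s ≤ M`, and the number of its closed orbits there has a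
measurable majorant `N` with `∫ N ≤ (M - m) (log n + 2 π Q + 7 / 2)`.

(iii) The logarithmic growth is attained: for every `n ≥ 300` there is a field as in (ii) with
`r = 1`, `m = - 1`, `M = 1`, `Q = 1` such that `X_s` has at least `(log n) / 15` closed orbits in
the punctured disc for every `s` with `- 3 / 10 ≤ s ≤ - 1 / 10`. -/
theorem result :
    (∀ f g : ℝ × ℝ → ℝ, ContDiff ℝ 1 f → ContDiff ℝ 1 g → ∀ (A : Set (ℝ × ℝ)) (m M : ℝ), m < M →
      (∀ t : ℝ, {r : ℝ | 0 < r ∧ (r * Real.cos t, r * Real.sin t) ∈ A}.OrdConnected) →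
      (∀ p ∈ A, 0 < angular f g p ∧ m ≤ divergence f g p ∧ divergence f g p ≤ M) →
      (∀ s ∉ Icc m M, (closedOrbitsIn (family f g s) A).Subsingleton) ∧
      ∀ r R : ℝ, 0 < r → 0 < R →
        (∀ p ∈ A, r ^ 2 ≤ p.1 ^ 2 + p.2 ^ 2 ∧ p.1 ^ 2 + p.2 ^ 2 ≤ R ^ 2) →
        ∃ N : ℝ → ℝ≥0∞, Measurable N ∧
          (∀ s ∈ Icc m M, ((closedOrbitsIn (family f g s) A).encard : ℝ≥0∞) ≤ N s) ∧
          ∫⁻ s, N s ≤ ENNReal.ofReal ((M - m) * (Real.log (R / r) + 1 / 4))) ∧
    (∀ n : ℕ, 1 ≤ n → ∀ F G : MvPolynomial (Fin 2) ℝ, F.totalDegree ≤ n → G.totalDegree ≤ n →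
      ∀ r m M Q : ℝ, 0 < r → m < M → 0 ≤ Q →
        (∀ p ∈ puncturedDisc r, 0 < angular (val F) (val G) p) →
        (∀ p : ℝ × ℝ, p.1 ^ 2 + p.2 ^ 2 ≤ (2 * r) ^ 2 →
          m ≤ divergence (val F) (val G) p ∧ divergence (val F) (val G) p ≤ M) →
        (∀ s ∈ Icc m M, ∀ p ∈ puncturedDisc r,
          |radial (val F) (val G) p - s / 2 * (p.1 ^ 2 + p.2 ^ 2)| ≤
            Q * angular (val F) (val G) p) →
        (∀ s ∉ Icc m M, closedOrbitsIn (family (val F) (val G) s) (puncturedDisc r) = ∅) ∧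
        ∃ N : ℝ → ℝ≥0∞, Measurable N ∧
          (∀ s, ((closedOrbitsIn (family (val F) (val G) s) (puncturedDisc r)).encard : ℝ≥0∞) ≤
            N s) ∧
          ∫⁻ s, N s ≤ ENNReal.ofReal ((M - m) * (Real.log n + 2 * Real.pi * Q + 7 / 2))) ∧
    (∀ n : ℕ, 300 ≤ n → ∃ F G : MvPolynomial (Fin 2) ℝ, F.totalDegree ≤ n ∧ G.totalDegree ≤ n ∧
      (∀ p ∈ puncturedDisc 1, 0 < angular (val F) (val G) p) ∧
      (∀ p : ℝ × ℝ, p.1 ^ 2 + p.2 ^ 2 ≤ (2 * 1) ^ 2 →
        -1 ≤ divergence (val F) (val G) p ∧ divergence (val F) (val G) p ≤ 1) ∧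
      (∀ s ∈ Icc (-1 : ℝ) 1, ∀ p ∈ puncturedDisc 1,
        |radial (val F) (val G) p - s / 2 * (p.1 ^ 2 + p.2 ^ 2)| ≤
          1 * angular (val F) (val G) p) ∧
      ∀ s ∈ Icc (-(3 / 10) : ℝ) (-(1 / 10)), ENNReal.ofReal (Real.log n / 15) ≤
        ((closedOrbitsIn (family (val F) (val G) s) (puncturedDisc 1)).encard : ℝ≥0∞)) := by
  refine ⟨fun f g hf hg A m M hmM hA h => ?_, fun n hn F G hF hG r m M Q hr hmM hQ h1 h2 h3 => ?_,
    fun n hn => Q62.HN.sharp hn⟩
  · have H : Q62.HN.Hyp f g A := ⟨hf, hg, TH525.AG.reg_ord hA, fun p hp => (h p hp).1⟩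
    refine ⟨fun s hs => H.subsingleton (fun p hp => (h p hp).2) hs, fun r R hr hR hrR => ?_⟩
    exact H.annulus hmM hr (fun p hp => (h p hp).2) hrR hR
  · have H : Q62.HN.Hyp (Q62.HN.val F) (Q62.HN.val G) (Q62.HN.pd r) :=
      ⟨Q62.HN.val_contDiff _, Q62.HN.val_contDiff _,
        fun t => by rw [Q62.HN.reg_pd hr]; exact ordConnected_Iic, h1⟩
    exact Q62.HN.disc_poly hn hF hG hr H hmM h2 hQ h3

end Pool.Agent.Results.MP_95e7ec_an.LogarithmicMean
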