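import Pool.Agent.Q62.HB.SmoothP

/-!
# Smoothed analysis of the number of closed orbits: a bound without the degree

`F` is a field of class `C²` whose derivative has Euclidean operator norm at most `1` and is
Lipschitz with constant `1` (in this norm) on the square `[-R-1, R+1]²`. We add an affine field
with six coefficients in `[-β, β]` and rotate by an angle. The mean number of ALL closed orbits in
the square `[-R, R]²` is at most a constant times `(R + 1)² β⁻² (1 + log (1 / β))`; there is no
degree in this bound, and it holds for polynomial fields of every degree.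
-/

open Set MeasureTheory
open scoped ENNReal

namespace Pool.Agent.Results.MP_95e7ec_an.SmoothedDegreeFree

/-- the Euclidean length of a vector -/
noncomputable def len (v : ℝ × ℝ) : ℝ := √(v.1 ^ 2 + v.2 ^ 2)

/-- the square `[-r, r]²` -/
def square (r : ℝ) : Set (ℝ × ℝ) := Icc (-r) r ×ˢ Icc (-r) r

/-- the rotation of the plane by the angle `α` -/
noncomputable def rotation (α : ℝ) (v : ℝ × ℝ) : ℝ × ℝ :=
  (Real.cos α * v.1 - Real.sin α * v.2, Real.sin α * v.1 + Real.cos α * v.2)

/-- the six parameters `(b, (p, q))` of an affine perturbation -/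
abbrev Parameters := (ℝ × ℝ) × ((ℝ × ℝ) × (ℝ × ℝ))

/-- the field `F + b + x p + y q` -/
def perturbed (F : ℝ × ℝ → ℝ × ℝ) (a : Parameters) (z : ℝ × ℝ) : ℝ × ℝ :=
  F z + (a.1 + (z.1 • a.2.1 + z.2 • a.2.2))

/-- all six parameters have modulus at most `β` -/
def box (β : ℝ) : Set Parameters := square β ×ˢ (square β ×ˢ square β)

/-- the closed orbits (ranges of the nonconstant periodic solutions, limit cycles or not) of the
field `X` which are contained in `A` -/
def closedOrbits (X : ℝ × ℝ → ℝ × ℝ) (A : Set (ℝ × ℝ)) : Set (Set (ℝ × ℝ)) :=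
  {C | (∃ γ : ℝ → ℝ × ℝ, ∃ T : ℝ, 0 < T ∧ (∀ t, HasDerivAt γ (X (γ t)) t) ∧
    (∀ t, γ (t + T) = γ t) ∧ (∃ s t, γ s ≠ γ t) ∧ C = range γ) ∧ C ⊆ A}

/-- the number of the closed orbits in the square `[-R, R]²` of the perturbed field rotated by
the angle `x.1` -/
noncomputable def number (F : ℝ × ℝ → ℝ × ℝ) (R : ℝ) (x : ℝ × Parameters) : ℝ≥0∞ :=
  (((closedOrbits (fun z => rotation x.1 (perturbed F x.2 z)) (square R)).encard : ℕ∞) : ℝ≥0∞)

/-- the planar field with the components `P` and `Q` -/
noncomputable def polynomialField (P Q : MvPolynomial (Fin 2) ℝ) (z : ℝ × ℝ) : ℝ × ℝ :=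
  (MvPolynomial.eval ![z.1, z.2] P, MvPolynomial.eval ![z.1, z.2] Q)

/-- on the convex set `K` the derivative of `F` has operator norm at most `1` and is Lipschitz with
constant `1`, with respect to the Euclidean norms -/
def Normalised (F : ℝ × ℝ → ℝ × ℝ) (K : Set (ℝ × ℝ)) : Prop :=
  (∀ z ∈ K, ∀ v, len (fderiv ℝ F z v) ≤ len v) ∧
    ∀ z ∈ K, ∀ z' ∈ K, ∀ v, len (fderiv ℝ F z v - fderiv ℝ F z' v) ≤ len (z - z') * len v

/-- **The mean number of closed orbits after an affine perturbation and a rotation is bounded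
independently of the degree.**

(i) Fields of class `C²`: there is a measurable function `H` of the parameters such that the number
of closed orbits in `[-R, R]²` of the perturbed field rotated by `α`, `0 < α < π`, has a measurable
majorant (as a function of `α`) with integral at most `H a`, and the mean of `H` over the
perturbations is at most `200000 (R + 1)² (1 + log (1 / β)) / β²`.

(ii) Polynomial fields of any degree: the number of closed orbits is a Borel function of the angle
and the parameters, and its means over `0 < α < π` and over `|α| ≤ β` are at most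
`200000 (R + 1)² (1 + log (1 / β)) / β²` (integral over `α`, mean over the perturbations) and
`100000 (R + 1)² (1 + log (1 / β)) / β³` (mean over both). -/
theorem result (R : ℝ) (hR : 0 ≤ R) (β : ℝ) (hβ : 0 < β) (hβ1 : β ≤ 1) :
    (∀ F : ℝ × ℝ → ℝ × ℝ, ContDiff ℝ 2 F → Normalised F (square (R + 1)) →
      ∃ H : Parameters → ℝ≥0∞, Measurable H ∧
        (∀ a ∈ box β, ∃ g : ℝ → ℝ≥0∞, Measurable g ∧
          (∀ α ∈ Ioo 0 Real.pi, number F R (α, a) ≤ g α) ∧ ∫⁻ α, g α ≤ H a) ∧
        ∫⁻ a in box β, H a ≤
          ENNReal.ofReal (200000 * (R + 1) ^ 2 * (1 + Real.log (1 / β)) / β ^ 2) *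
            volume (box β)) ∧
    (∀ P Q : MvPolynomial (Fin 2) ℝ, Normalised (polynomialField P Q) (square (R + 1)) →
      Measurable (number (polynomialField P Q) R) ∧
      ∫⁻ x in Ioo 0 Real.pi ×ˢ box β, number (polynomialField P Q) R x ≤
        ENNReal.ofReal (200000 * (R + 1) ^ 2 * (1 + Real.log (1 / β)) / β ^ 2) *
          volume (box β) ∧
      ∫⁻ x in Icc (-β) β ×ˢ box β, number (polynomialField P Q) R x ≤
        ENNReal.ofReal (100000 * (R + 1) ^ 2 * (1 + Real.log (1 / β)) / β ^ 3) *
          volume (Icc (-β) β ×ˢ box β)) := by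
  refine ⟨fun F hF hN => ?_, fun P Q hN => ?_⟩
  · exact Q62.HB.smooth (F := F) hR
      ⟨hF, (convex_Icc _ _).prod (convex_Icc _ _), hN.1, hN.2⟩ hβ hβ1
  · exact Q62.HB.smoothP (P := P) (Q := Q) hR
      ⟨H709R2.contDiff_field P Q, (convex_Icc _ _).prod (convex_Icc _ _), hN.1, hN.2⟩ hβ hβ1

end Pool.Agent.Results.MP_95e7ec_an.SmoothedDegreeFree
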