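import Mathlib
import Pool.Agent.Q62.UM.All
import Pool.Agent.W960.HP.Tot

/-! # The mean number of closed orbits of every polynomial field grows at most polynomially

Let `X = (P, Q)` be an arbitrary polynomial vector field of degree at most `n` in the plane. We count
all closed orbits in the whole plane (limit cycles or not, around any zeros, of all sizes) of the
field rotated by the angle `α`, and take the mean over `0 < α < π`. It is at most `K n ^ K` with an
absolute constant `K`: the bound depends on nothing but the degree. -/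

open Set MeasureTheory
open scoped ENNReal

namespace Pool.Agent.Results.MP_95e7ec_an.UniformMean

/-- The vector field `(P, Q)` rotated by the angle `a`. -/
noncomputable def rotated (P Q : MvPolynomial (Fin 2) ℝ) (a : ℝ) (z : ℝ × ℝ) : ℝ × ℝ :=
  (Real.cos a * MvPolynomial.eval ![z.1, z.2] P - Real.sin a * MvPolynomial.eval ![z.1, z.2] Q,
    Real.sin a * MvPolynomial.eval ![z.1, z.2] P + Real.cos a * MvPolynomial.eval ![z.1, z.2] Q)

/-- The set of all closed orbits in the plane (the images of the nonconstant periodic solutions,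
limit cycles or not) of a vector field. -/
def closedOrbits (X : ℝ × ℝ → ℝ × ℝ) : Set (Set (ℝ × ℝ)) :=
  {C | ∃ γ : ℝ → ℝ × ℝ, ∃ T : ℝ, 0 < T ∧ (∀ t : ℝ, HasDerivAt γ (X (γ t)) t) ∧
    (∀ t : ℝ, γ (t + T) = γ t) ∧ (∃ s t : ℝ, γ s ≠ γ t) ∧ C = Set.range γ}

/-- The closed orbit `C` of `(P, Q)` persists when the field is rotated by the angles between `0`
and `η`: there are a continuous map `(a, t) ↦ γ a t` and a continuous positive function `a ↦ T a`
such that for all angles `a` between `0` and `η` the curve `γ a` is a nonconstant solution of period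
`T a` of the field rotated by `a`, and `C` is the range of `γ 0`. -/
def Persists (P Q : MvPolynomial (Fin 2) ℝ) (η : ℝ) (C : Set (ℝ × ℝ)) : Prop :=
  ∃ γ : ℝ → ℝ → ℝ × ℝ, ∃ T : ℝ → ℝ,
    ContinuousOn (fun q : ℝ × ℝ => γ q.1 q.2) (uIcc 0 η ×ˢ univ) ∧ ContinuousOn T (uIcc 0 η) ∧
    (∀ a ∈ uIcc 0 η, 0 < T a ∧ (∀ t, HasDerivAt (γ a) (rotated P Q a (γ a t)) t) ∧
      (∀ t, γ a (t + T a) = γ a t) ∧ (∃ s t, γ a s ≠ γ a t)) ∧
    C = range (γ 0)

/-- **Uniform finiteness on average, with polynomial growth.** There is an absolute constant `K` such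
that for every `n ≥ 1` and all polynomials `P`, `Q` of degree at most `n`:

(i) the number of all closed orbits in the plane of the field `(P, Q)` rotated by `α` has a measurable
majorant on `0 < α < π` with integral at most `K n ^ K`;

(ii) the sum, over all closed orbits of the field `(P, Q)` itself, of the lengths of the intervals of
angles up to which they persist under rotations of the field is at most `2 K n ^ K`. -/
theorem result : ∃ K : ℕ, ∀ n : ℕ, 1 ≤ n → ∀ P Q : MvPolynomial (Fin 2) ℝ,
    P.totalDegree ≤ n → Q.totalDegree ≤ n →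
    (∃ g : ℝ → ℝ≥0∞, Measurable g ∧
      (∀ α ∈ Ioo 0 Real.pi, ((closedOrbits (rotated P Q α)).encard : ℝ≥0∞) ≤ g α) ∧
      ∫⁻ α in Ioo 0 Real.pi, g α ≤ ENNReal.ofReal (K * n ^ K)) ∧
    ∑' C : closedOrbits (rotated P Q 0),
      volume {η : ℝ | η ∈ Ioo (-Real.pi) Real.pi ∧ Persists P Q η C} ≤
        ENNReal.ofReal (2 * (K * n ^ K)) := by
  obtain ⟨K, hK⟩ := Q62.UM.main
  refine ⟨K, fun n hn P Q hP hQ => ?_⟩
  have hB : (0:ℝ) ≤ K * n ^ K := by positivity
  have h1 : H709Q.Maj (fun α => ((closedOrbits (rotated P Q α)).encard : ℝ≥0∞)) (K * n ^ K) :=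
    hK n hn P Q hP hQ
  refine ⟨h1, ?_⟩
  have hF : ContDiff ℝ 2 (H709R2.field P Q) := H709R2.contDiff_field P Q
  have h3 : H709Q.Maj (fun α => (({D | H709R2.ClosedOrbit (H709U.rf (H709R2.field P Q) α) D ∧
      (fun _ _ => True : ℝ → Set (ℝ × ℝ) → Prop) α D}.encard : ℕ∞) : ℝ≥0∞)) (K * n ^ K) := by
    simp only [and_true]
    exact h1
  have h := W960.HP.total hF (G := fun _ _ => True) (fun _ _ h => h) hB h3
    (closedOrbits (rotated P Q 0))
  refine le_trans (ENNReal.tsum_le_tsum fun C => measure_mono ?_) h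
  rintro η ⟨h4, γ, T, h5, h6, h7, h8⟩
  exact ⟨h4, γ, T, h5, h6, fun a ha => ⟨(h7 a ha).1, (h7 a ha).2.1, (h7 a ha).2.2.1,
    (h7 a ha).2.2.2, trivial⟩, h8⟩

end Pool.Agent.Results.MP_95e7ec_an.UniformMean
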